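import Mathlib

set_option autoImplicit false

/-!
# Exceptions to the decomposition of `1 x n` Konane positions across a double gap

Konane on a row of cells indexed by `ℤ`: stones in odd cells are white (Right), stones in even cells are black
(Left). We compare positions in Conway's theory of partizan games and show that the positions
`S(1, 2·, 2)` and `S(3, 4·, 6)` are not equal to the sum of the values of their two parts.
-/

namespace Pool.Agent.Results.MP_914aa3_co.Exceptions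

/-! ## Partizan games -/

/-- A game graph: positions, with the moves of Left and the moves of Right. -/
structure Sys where
  /-- positions -/
  Pos : Type
  /-- `mv true x x'`: Left can move from `x` to `x'`; `mv false x x'`: Right can move from `x` to `x'`. -/
  mv : Bool → Pos → Pos → Prop

/-- The disjunctive sum: a player moves in exactly one of the two components. -/
def Sys.add (X Y : Sys) : Sys where
  Pos := X.Pos × Y.Pos
  mv e p q := (X.mv e p.1 q.1 ∧ q.2 = p.2) ∨ (Y.mv e p.2 q.2 ∧ q.1 = p.1)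

/-- Conway's comparison of games, by the usual recursion.

* `Cmp X Y true x y` is `x ≤ y`: every `x'` that Left can reach from `x` satisfies `x' ⧏ y` and every `y'`
  that Right can reach from `y` satisfies `x ⧏ y'`.
* `Cmp X Y false x y` is `x ⧏ y` (`x` is less than or confused with `y`): there is a move of Left from `y`
  to some `y'` with `x ≤ y'`, or a move of Right from `x` to some `x'` with `x' ≤ y`. -/
inductive Cmp (X Y : Sys) : Bool → X.Pos → Y.Pos → Prop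
  | le {x : X.Pos} {y : Y.Pos} : (∀ x', X.mv true x x' → Cmp X Y false x' y) →
      (∀ y', Y.mv false y y' → Cmp X Y false x y') → Cmp X Y true x y
  | lfL {x : X.Pos} {y y' : Y.Pos} : Y.mv true y y' → Cmp X Y true x y' → Cmp X Y false x y
  | lfR {x x' : X.Pos} {y : Y.Pos} : X.mv false x x' → Cmp X Y true x' y → Cmp X Y false x y

/-- Two positions (of possibly different game graphs) have the same value: `x ≤ y` and `y ≤ x`. -/
def SameValue (X Y : Sys) (x : X.Pos) (y : Y.Pos) : Prop :=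
  Cmp X Y true x y ∧ Cmp Y X true y x

/-- `x ≤ y` excludes `y ⧏ x`. -/
theorem Cmp.excl {X Y : Sys} : ∀ {e : Bool} {x : X.Pos} {y : Y.Pos}, Cmp X Y e x y →
    ¬ Cmp Y X (!e) y x := by
  intro e x y h
  induction h with
  | le h1 h2 ih1 ih2 =>
    intro h'
    cases h' with
    | lfL m h => exact ih1 _ m h
    | lfR m h => exact ih2 _ m h
  | lfL m h ih =>
    intro h'
    cases h' with
    | le a b => exact ih (a _ m)
  | lfR m h ih =>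
    intro h'
    cases h' with
    | le a b => exact ih (b _ m)

/-! ## Konane on a row -/

/-- One jump in direction `d`, the stone in cell `p` jumps over the stone in cell `p + d` into the empty
cell `p + 2d`, and the stone in `p + d` is removed. A state is the cell of the moving stone together with the
set of occupied cells. Since black stones lie in even cells and white stones in odd cells, the stone that is
jumped over is always an opposing one. -/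
def Hop (d : ℤ) (s t : ℤ × Finset ℤ) : Prop :=
  s.1 ∈ s.2 ∧ s.1 + d ∈ s.2 ∧ s.1 + 2 * d ∉ s.2 ∧
    t = (s.1 + 2 * d, insert (s.1 + 2 * d) ((s.2.erase s.1).erase (s.1 + d)))

/-- A move from the set `B` of occupied cells to the set `B'`: a stone of the mover (in an even cell for
Left, who is Black, in an odd cell for Right, who is White) makes one or several jumps in one direction. -/
def Move (left : Bool) (B B' : Finset ℤ) : Prop :=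
  ∃ d p p' : ℤ, (d = 1 ∨ d = -1) ∧ (p % 2 = 0 ↔ left = true) ∧
    Relation.TransGen (Hop d) (p, B) (p', B')

/-- Konane on a row: a position is the set of occupied cells. -/
def Konane : Sys where
  Pos := Finset ℤ
  mv := Move

/-- The first two runs: `k` stones in the cells `1, …, k`, an empty cell, `m` stones in the cells
`k + 2, …, k + m + 1`. -/
def partL (k m : ℕ) : Finset ℤ :=
  (Finset.range k).image (fun i : ℕ => 1 + (i : ℤ)) ∪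
    (Finset.range m).image (fun i : ℕ => (k : ℤ) + 2 + i)

/-- The third run: after two more empty cells, `n` stones in the cells `k + m + 4, …, k + m + 3 + n`. -/
def partR (k m n : ℕ) : Finset ℤ :=
  (Finset.range n).image (fun i : ℕ => (k : ℤ) + m + 4 + i)

/-- The position `S(k, m·, n)`. -/
def S (k m n : ℕ) : Finset ℤ := partL k m ∪ partR k m n

/-- `S(k, m·, n)` decomposes: its value equals `V_L + V_R`, the sum of the value of the first two runs and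
the value of the third run. -/
def Decomposes (k m n : ℕ) : Prop :=
  SameValue Konane (Konane.add Konane) (S k m n) (partL k m, partR k m n)

/-! ## Computable representation -/

/-- A computable representation of a game graph, with a complete list of moves. -/
structure Rep (X : Sys) where
  P : Type
  φ : P → X.Pos
  mv : Bool → P → List P
  sound : ∀ e p q, q ∈ mv e p → X.mv e (φ p) (φ q)
  complete : ∀ e p x', X.mv e (φ p) x' → ∃ q ∈ mv e p, φ q = x'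

/-- The checker: verifies `≤` (`true`) or `⧏` (`false`) along a certificate, a list of indices of moves. -/
def chk {X Y : Sys} (A : Rep X) (B : Rep Y) : ℕ → Bool → A.P → B.P → List ℕ → Option (List ℕ)
  | 0, _, _, _, _ => none
  | n + 1, true, p, q, c =>
    (B.mv false q).foldl (fun o q' => o.bind fun c => chk A B n false p q' c)
      ((A.mv true p).foldl (fun o p' => o.bind fun c => chk A B n false p' q c) (some c))
  | _ + 1, false, _, _, [] => none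
  | n + 1, false, p, q, i :: c =>
    match (B.mv true q)[i]? with
    | some q' => chk A B n true p q' c
    | none =>
      match (A.mv false p)[i - (B.mv true q).length]? with
      | some p' => chk A B n true p' q c
      | none => none

theorem foldl_all {α β : Type} (f : α → β → Option β) (l : List α) (o : Option β) (c : β)
    (h : l.foldl (fun o a => o.bind fun c => f a c) o = some c) :
    (∃ c0, o = some c0) ∧ ∀ a ∈ l, ∃ c1 c2, f a c1 = some c2 := by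
  induction l generalizing o with
  | nil => exact ⟨⟨c, h⟩, by simp⟩
  | cons a l ih =>
    rw [List.foldl_cons] at h
    obtain ⟨⟨c0, h0⟩, h1⟩ := ih _ h
    cases o with
    | none => simp at h0
    | some c1 =>
      refine ⟨⟨c1, rfl⟩, ?_⟩
      intro b hb
      rcases List.mem_cons.1 hb with rfl | hb
      · exact ⟨c1, c0, h0⟩
      · exact h1 b hb

theorem chk_sound {X Y : Sys} (A : Rep X) (B : Rep Y) : ∀ (n : ℕ) (e : Bool) (p : A.P) (q : B.P)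
    (c c' : List ℕ), chk A B n e p q c = some c' → Cmp X Y e (A.φ p) (B.φ q) := by
  intro n
  induction n with
  | zero => intro e p q c c' h; simp [chk] at h
  | succ n ih =>
    intro e p q c c' h
    cases e with
    | true =>
      rw [chk] at h
      obtain ⟨⟨c0, h0⟩, h1⟩ := foldl_all (fun q' c => chk A B n false p q' c) _ _ _ h
      obtain ⟨-, h2⟩ := foldl_all (fun p' c => chk A B n false p' q c) _ _ _ h0
      refine Cmp.le ?_ ?_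
      · intro x' hx'
        obtain ⟨p', hp', rfl⟩ := A.complete true p x' hx'
        obtain ⟨c1, c2, h3⟩ := h2 p' hp'
        exact ih _ _ _ _ _ h3
      · intro y' hy'
        obtain ⟨q', hq', rfl⟩ := B.complete false q y' hy'
        obtain ⟨c1, c2, h3⟩ := h1 q' hq'
        exact ih _ _ _ _ _ h3
    | false =>
      cases c with
      | nil => simp [chk] at h
      | cons i c =>
        rw [chk] at h
        cases hq : (B.mv true q)[i]? with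
        | some q' =>
          rw [hq] at h
          exact Cmp.lfL (B.sound true q q' (List.mem_of_getElem? hq)) (ih _ _ _ _ _ h)
        | none =>
          rw [hq] at h
          cases hp : (A.mv false p)[i - (B.mv true q).length]? with
          | some p' =>
            simp only [hp] at h
            exact Cmp.lfR (A.sound false p p' (List.mem_of_getElem? hp)) (ih _ _ _ _ _ h)
          | none => simp [hp] at h

/-- representation of a sum -/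
def Rep.add {X Y : Sys} (A : Rep X) (B : Rep Y) : Rep (X.add Y) where
  P := A.P × B.P
  φ p := (A.φ p.1, B.φ p.2)
  mv e p := (A.mv e p.1).map (fun a => (a, p.2)) ++ (B.mv e p.2).map (fun b => (p.1, b))
  sound := by
    intro e p q hq
    rcases List.mem_append.1 hq with h | h
    · obtain ⟨a, ha, rfl⟩ := List.mem_map.1 h
      exact Or.inl ⟨A.sound e _ _ ha, rfl⟩
    · obtain ⟨b, hb, rfl⟩ := List.mem_map.1 h
      exact Or.inr ⟨B.sound e _ _ hb, rfl⟩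
  complete := by
    rintro e p ⟨x1, x2⟩ (⟨h1, h2⟩ | ⟨h1, h2⟩)
    · obtain ⟨a, ha, rfl⟩ := A.complete e _ _ h1
      refine ⟨(a, p.2), List.mem_append.2 (Or.inl (List.mem_map.2 ⟨a, ha, rfl⟩)), ?_⟩
      change x2 = _ at h2
      subst h2; rfl
    · obtain ⟨b, hb, rfl⟩ := B.complete e _ _ h1
      refine ⟨(p.1, b), List.mem_append.2 (Or.inr (List.mem_map.2 ⟨b, hb, rfl⟩)), ?_⟩
      change x1 = _ at h2
      subst h2; rfl

/-- all positions reached by the stone in cell `p` jumping in direction `d` -/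
def hops (d : ℤ) : ℕ → ℤ → List ℤ → List (ℤ × List ℤ)
  | 0, _, _ => []
  | n + 1, p, l =>
    if p ∈ l ∧ p + d ∈ l ∧ p + 2 * d ∉ l then
      let l' := (p + 2 * d) :: l.filter (fun x => x != p && x != p + d)
      (p + 2 * d, l') :: hops d n (p + 2 * d) l'
    else []

theorem hop_toFinset {d p : ℤ} {l : List ℤ} (h : p ∈ l ∧ p + d ∈ l ∧ p + 2 * d ∉ l) :
    Hop d (p, l.toFinset)
      (p + 2 * d, ((p + 2 * d) :: l.filter (fun x => x != p && x != p + d)).toFinset) := by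
  refine ⟨by simpa using h.1, by simpa using h.2.1, by simpa using h.2.2, ?_⟩
  refine Prod.ext rfl ?_
  ext x
  simp
  tauto

theorem hops_sound (d : ℤ) : ∀ (n : ℕ) (p : ℤ) (l : List ℤ) (q : ℤ × List ℤ), q ∈ hops d n p l →
    Relation.TransGen (Hop d) (p, l.toFinset) (q.1, q.2.toFinset) := by
  intro n
  induction n with
  | zero => intro p l q hq; simp [hops] at hq
  | succ n ih =>
    intro p l q hq
    rw [hops] at hq
    split_ifs at hq with h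
    · rcases List.mem_cons.1 hq with rfl | hq
      · exact Relation.TransGen.single (hop_toFinset h)
      · exact Relation.TransGen.head (hop_toFinset h) (ih _ _ _ hq)
    · simp at hq

theorem Hop.unique {d : ℤ} {s t t' : ℤ × Finset ℤ} (h : Hop d s t) (h' : Hop d s t') : t = t' :=
  h.2.2.2.trans h'.2.2.2.symm

theorem card_hop {d : ℤ} (hd : d = 1 ∨ d = -1) {s t : ℤ × Finset ℤ} (h : Hop d s t) :
    t.2.card < s.2.card := by
  obtain ⟨h1, h2, h3, rfl⟩ := h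
  have hne : s.1 + d ≠ s.1 := by rcases hd with rfl | rfl <;> omega
  have e1 : ((s.2.erase s.1).erase (s.1 + d)).card = s.2.card - 1 - 1 := by
    rw [Finset.card_erase_of_mem, Finset.card_erase_of_mem h1]
    rw [Finset.mem_erase]; exact ⟨hne, h2⟩
  have e2 := Finset.card_insert_le (s.1 + 2 * d) ((s.2.erase s.1).erase (s.1 + d))
  have e3 : 2 ≤ s.2.card := by
    have : ({s.1, s.1 + d} : Finset ℤ) ⊆ s.2 := by
      intro x hx
      simp only [Finset.mem_insert, Finset.mem_singleton] at hx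
      rcases hx with rfl | rfl <;> assumption
    calc 2 = ({s.1, s.1 + d} : Finset ℤ).card := by rw [Finset.card_pair hne.symm]
      _ ≤ _ := Finset.card_le_card this
  simp only
  omega

theorem hops_complete {d : ℤ} (hd : d = 1 ∨ d = -1) : ∀ (n : ℕ) (p : ℤ) (l : List ℤ)
    (t : ℤ × Finset ℤ), l.toFinset.card ≤ n →
    Relation.TransGen (Hop d) (p, l.toFinset) t →
    ∃ q ∈ hops d n p l, (q.1, q.2.toFinset) = t := by
  intro n
  induction n with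
  | zero =>
    intro p l t hn ht
    obtain ⟨s, hs, -⟩ := Relation.TransGen.head'_iff.1 ht
    have := hs.1
    rw [Nat.le_zero, Finset.card_eq_zero] at hn
    simp only at this
    rw [hn] at this
    simp at this
  | succ n ih =>
    intro p l t hn ht
    obtain ⟨s, hs, hst⟩ := Relation.TransGen.head'_iff.1 ht
    have h : p ∈ l ∧ p + d ∈ l ∧ p + 2 * d ∉ l := by
      refine ⟨by simpa using hs.1, by simpa using hs.2.1, by simpa using hs.2.2.1⟩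
    have hs' := hop_toFinset h
    have hsu := Hop.unique hs hs'
    rw [hops, if_pos h]
    rcases Relation.reflTransGen_iff_eq_or_transGen.1 hst with e | e
    · refine ⟨_, List.mem_cons_self, ?_⟩
      rw [e, hsu]
    · subst hsu
      have hc := card_hop hd hs'
      simp only at hc
      obtain ⟨q, hq, rfl⟩ := ih _ _ t (by omega) e
      exact ⟨q, List.mem_cons_of_mem _ hq, rfl⟩

/-- all moves of a player -/
def kmv (left : Bool) (l : List ℤ) : List (List ℤ) :=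
  l.flatMap fun p =>
    if (decide (p % 2 = 0)) = left then
      (hops 1 l.length p l ++ hops (-1) l.length p l).map Prod.snd
    else []

/-- representation of Konane positions by lists -/
def KRep : Rep Konane where
  P := List ℤ
  φ := List.toFinset
  mv := kmv
  sound := by
    intro e l q hq
    obtain ⟨p, hp, hq⟩ := List.mem_flatMap.1 hq
    split_ifs at hq with h
    · obtain ⟨s, hs, rfl⟩ := List.mem_map.1 hq
      rcases List.mem_append.1 hs with hs | hs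
      · exact ⟨1, p, s.1, Or.inl rfl, by rw [← h]; simp, hops_sound _ _ _ _ _ hs⟩
      · exact ⟨-1, p, s.1, Or.inr rfl, by rw [← h]; simp, hops_sound _ _ _ _ _ hs⟩
    · simp at hq
  complete := by
    rintro e l x' ⟨d, p, p', hd, hp, ht⟩
    have hpl : p ∈ l := by
      obtain ⟨s, hs, -⟩ := Relation.TransGen.head'_iff.1 ht
      simpa using hs.1
    obtain ⟨q, hq, hq'⟩ := hops_complete hd l.length p l (p', x') (List.toFinset_card_le l) ht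
    refine ⟨q.2, List.mem_flatMap.2 ⟨p, hpl, ?_⟩, congrArg Prod.snd hq'⟩
    have he : decide (p % 2 = 0) = e := by
      cases e <;> simp_all
    rw [if_pos he]
    refine List.mem_map.2 ⟨q, List.mem_append.2 ?_, rfl⟩
    rcases hd with rfl | rfl
    · exact Or.inl hq
    · exact Or.inr hq

/-- certificate for `S(1, 2·, 2)` -/
def cert1 : List ℕ := [3, 0, 0, 0, 0, 0, 0, 0, 0, 0]

/-- certificate for `S(3, 4·, 6)` -/
def cert2 : List ℕ := [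
  3, 3, 3, 7, 1, 0, 6, 1, 0, 5, 3, 6, 1, 0, 5, 4, 5, 5, 6, 1, 0, 5, 1, 0, 4, 3, 3, 4, 1, 2, 1, 1, 0, 5, 1, 1,
  4, 0, 4, 3, 0, 4, 0, 3, 0, 4, 1, 2, 1, 1, 0, 1, 1, 0, 0, 0, 6, 5, 1, 1, 4, 0, 4, 1, 1, 3, 0, 6, 1, 1, 3, 0,
  6, 4, 0, 4, 0, 4, 0, 5, 4, 3, 0, 4, 0, 3, 0, 4, 3, 0, 0, 0, 6, 4, 0, 4, 0, 4, 0, 4, 3, 0, 3, 0, 4, 0, 3, 3,
  3, 2, 0, 3, 2, 0, 2, 5, 3, 2, 0, 5, 2, 0, 5, 2, 0, 3, 4, 3, 2, 0, 2, 5, 2, 0, 3, 3, 2, 3, 3, 6, 5, 1, 1, 4,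
  0, 4, 1, 1, 3, 0, 6, 1, 1, 3, 0, 6, 4, 0, 4, 0, 4, 0, 5, 3, 2, 0, 5, 2, 0, 5, 2, 0, 3, 6, 6, 1, 1, 3, 0, 5,
  2, 0, 5, 3, 0, 2, 0, 2, 5, 6, 4, 0, 4, 0, 4, 0, 5, 2, 0, 3, 5, 3, 0, 2, 0, 2, 4, 4, 0, 3, 3, 5, 4, 3, 0, 4,
  0, 3, 0, 4, 3, 0, 0, 0, 6, 4, 0, 4, 0, 4, 0, 4, 3, 0, 3, 0, 4, 0, 4, 3, 2, 0, 2, 5, 2, 0, 3, 3, 2, 3, 5, 6,
  4, 0, 4, 0, 4, 0, 5, 2, 0, 3, 5, 3, 0, 2, 0, 2, 4, 4, 0, 3, 3, 4, 3, 0, 3, 0, 4, 0, 3, 2, 3, 4, 4, 0, 3, 4,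
  5, 4, 1, 1, 3, 0, 4, 1, 1, 3, 0, 5, 1, 1, 3, 0, 5, 3, 0, 4, 0, 3, 0, 4, 3, 2, 0, 4, 2, 0, 4, 2, 0, 2, 5, 5,
  1, 1, 3, 0, 4, 2, 0, 4, 3, 0, 2, 0, 2, 4, 5, 3, 0, 4, 0, 3, 0, 4, 2, 0, 2, 4, 3, 0, 2, 0, 2, 3, 3, 0, 2, 3,
  3, 4, 1, 2, 1, 1, 0, 5, 1, 1, 4, 0, 4, 3, 0, 4, 0, 3, 0, 4, 1, 2, 1, 1, 0, 1, 1, 0, 0, 0, 6, 5, 1, 1, 4, 0,
  4, 1, 1, 3, 0, 6, 1, 1, 3, 0, 6, 4, 0, 4, 0, 4, 0, 5, 4, 3, 0, 4, 0, 3, 0, 4, 3, 0, 0, 0, 6, 4, 0, 4, 0, 4,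
  0, 4, 3, 0, 3, 0, 4, 0, 3, 4, 1, 2, 1, 1, 0, 1, 1, 0, 0, 0, 1, 3, 2, 1, 1, 0, 4, 3, 1, 1, 1, 1, 1, 0, 2, 1,
  4, 1, 1, 0, 0, 0, 3, 3, 0, 0, 0, 2, 0, 0, 3, 6, 5, 1, 1, 4, 0, 4, 1, 1, 3, 0, 6, 1, 1, 3, 0, 6, 4, 0, 4, 0,
  4, 0, 1, 3, 2, 1, 1, 0, 4, 3, 1, 1, 1, 1, 1, 0, 2, 1, 7, 6, 1, 1, 3, 0, 1, 3, 1, 1, 1, 6, 3, 0, 0, 0, 6, 6,
  4, 0, 4, 0, 4, 0, 5, 4, 0, 0, 1, 6, 3, 0, 0, 0, 5, 4, 0, 0, 1, 3, 5, 4, 3, 0, 4, 0, 3, 0, 4, 3, 0, 0, 0, 6,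
  4, 0, 4, 0, 4, 0, 4, 3, 0, 3, 0, 4, 0, 4, 1, 1, 0, 0, 0, 3, 3, 0, 0, 0, 2, 0, 0, 6, 6, 4, 0, 4, 0, 4, 0, 5,
  4, 0, 0, 1, 6, 3, 0, 0, 0, 5, 4, 0, 0, 1, 4, 4, 3, 0, 3, 0, 4, 0, 0, 1, 0, 2, 1, 5, 4, 0, 0, 1, 5, 5, 4, 1,
  1, 3, 0, 4, 1, 1, 3, 0, 5, 1, 1, 3, 0, 5, 3, 0, 4, 0, 3, 0, 1, 3, 2, 1, 1, 0, 4, 3, 1, 1, 1, 1, 1, 0, 2, 1,
  6, 5, 1, 1, 3, 0, 1, 3, 1, 1, 1, 5, 3, 0, 0, 0, 5, 5, 3, 0, 4, 0, 3, 0, 5, 4, 0, 0, 1, 5, 3, 0, 0, 0, 4, 3,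
  0, 0, 1, 6, 7, 3, 2, 1, 0, 3, 1, 0, 6, 6, 1, 1, 0, 2, 1, 4, 0, 0, 3, 0, 3, 1, 1, 3, 0, 5, 3, 2, 2, 0, 3, 2,
  0, 5, 4, 0, 0, 3, 0, 3, 2, 2, 0, 3, 2, 4, 2, 2, 0, 3, 5, 1, 1, 3, 0, 4, 2, 0, 4, 3, 0, 2, 0, 2, 7, 6, 1, 1,
  0, 2, 1, 4, 0, 0, 3, 0, 3, 1, 1, 3, 0, 1, 4, 1, 0, 2, 1, 1, 2, 0, 0, 1, 2, 3, 1, 1, 1, 6, 4, 0, 0, 3, 0, 0,
  1, 0, 0, 0, 3, 3, 0, 0, 0, 3, 5, 1, 1, 3, 0, 1, 3, 1, 1, 1, 5, 3, 0, 0, 0, 3, 3, 1, 0, 3, 6, 1, 1, 3, 0, 5,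
  2, 0, 5, 3, 0, 2, 0, 2, 3, 6, 1, 1, 3, 0, 1, 3, 1, 1, 1, 6, 3, 0, 0, 0, 3, 1, 0, 5, 3, 0, 2, 0, 2, 6, 3, 0,
  0, 0, 4, 0, 2, 0, 0, 1, 1, 0, 1, 0, 2, 1, 1, 0, 1, 0, 1, 0, 0, 0, 1, 5, 2, 1, 1, 0, 1, 0, 0, 1, 0, 0, 0, 1,
  3, 0, 6, 3, 2, 1, 0, 5, 4, 0, 0, 3, 0, 3, 2, 2, 0, 3, 2, 4, 2, 2, 0, 6, 4, 0, 0, 3, 0, 0, 1, 0, 0, 0, 3, 3,
  0, 0, 0, 4, 0, 0, 3, 2, 0, 1, 0, 0, 0, 2, 0, 2, 0, 0, 3, 1, 0, 4, 3, 0, 2, 0, 2, 5, 3, 0, 0, 0, 3, 0, 2, 0,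
  0, 3, 6, 1, 0, 5, 5, 1, 1, 3, 0, 4, 2, 0, 4, 3, 0, 2, 0, 2, 6, 5, 1, 1, 3, 0, 1, 3, 1, 1, 1, 5, 3, 0, 0, 0,
  1, 1, 0, 1, 0, 2, 1, 1, 0, 1, 0, 1, 0, 0, 0, 1, 5, 2, 1, 1, 0, 1, 0, 0, 1, 0, 0, 0, 1, 3, 0, 5, 1, 0, 4, 3,
  0, 2, 0, 2, 5, 3, 0, 0, 0, 3, 0, 2, 0, 0, 3, 3, 6, 1, 0, 5, 4, 5, 3, 5, 4, 3, 0, 4, 0, 3, 0, 4, 3, 0, 0, 0,
  6, 4, 0, 4, 0, 4, 0, 4, 3, 0, 3, 0, 4, 0, 4, 3, 2, 0, 2, 5, 2, 0, 3, 3, 2, 3, 5, 6, 4, 0, 4, 0, 4, 0, 5, 2,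
  0, 3, 5, 3, 0, 2, 0, 2, 4, 4, 0, 3, 3, 4, 3, 0, 3, 0, 4, 0, 3, 2, 3, 4, 4, 0, 3, 3, 5, 4, 3, 0, 4, 0, 3, 0,
  4, 3, 0, 0, 0, 6, 4, 0, 4, 0, 4, 0, 4, 3, 0, 3, 0, 4, 0, 4, 1, 1, 0, 0, 0, 3, 3, 0, 0, 0, 2, 0, 0, 6, 6, 4,
  0, 4, 0, 4, 0, 5, 4, 0, 0, 1, 6, 3, 0, 0, 0, 5, 4, 0, 0, 1, 4, 4, 3, 0, 3, 0, 4, 0, 0, 1, 0, 2, 1, 5, 4, 0,
  0, 1, 3, 6, 1, 0, 5, 5, 6, 4, 0, 4, 0, 4, 0, 5, 2, 0, 3, 5, 3, 0, 2, 0, 2, 4, 4, 0, 3, 6, 6, 4, 0, 4, 0, 4,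
  0, 5, 4, 0, 0, 1, 6, 3, 0, 0, 0, 5, 4, 0, 0, 1, 6, 1, 0, 5, 3, 0, 2, 0, 2, 6, 3, 0, 0, 0, 4, 0, 2, 0, 0, 4,
  5, 4, 4, 0, 3, 5, 4, 0, 0, 1, 4, 0, 2, 0, 0, 2, 4, 5, 3, 4, 3, 0, 3, 0, 4, 0, 3, 2, 3, 4, 4, 0, 3, 4, 4, 3,
  0, 3, 0, 4, 0, 0, 1, 0, 2, 1, 5, 4, 0, 0, 1, 4, 5, 4, 4, 0, 3, 5, 4, 0, 0, 1, 4, 0, 2, 0, 0, 4, 5, 1, 0, 4,
  4, 5, 3, 0, 4, 0, 3, 0, 4, 2, 0, 2, 4, 3, 0, 2, 0, 2, 3, 3, 0, 2, 5, 5, 3, 0, 4, 0, 3, 0, 5, 4, 0, 0, 1, 5,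
  3, 0, 0, 0, 4, 3, 0, 0, 1, 5, 1, 0, 4, 3, 0, 2, 0, 2, 5, 3, 0, 0, 0, 3, 0, 2, 0, 0, 3, 4, 3, 3, 0, 2, 4, 3,
  0, 0, 1, 3, 0, 2, 0, 0, 3, 5, 6, 1, 0, 5, 1, 0, 4, 4, 5, 4, 1, 1, 3, 0, 4, 1, 1, 3, 0, 5, 1, 1, 3, 0, 5, 3,
  0, 4, 0, 3, 0, 4, 3, 2, 0, 4, 2, 0, 4, 2, 0, 2, 5, 5, 1, 1, 3, 0, 4, 2, 0, 4, 3, 0, 2, 0, 2, 4, 5, 3, 0, 4,
  0, 3, 0, 4, 2, 0, 2, 4, 3, 0, 2, 0, 2, 3, 3, 0, 2, 5, 5, 4, 1, 1, 3, 0, 4, 1, 1, 3, 0, 5, 1, 1, 3, 0, 5, 3,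
  0, 4, 0, 3, 0, 1, 3, 2, 1, 1, 0, 4, 3, 1, 1, 1, 1, 1, 0, 2, 1, 6, 5, 1, 1, 3, 0, 1, 3, 1, 1, 1, 5, 3, 0, 0,
  0, 5, 5, 3, 0, 4, 0, 3, 0, 5, 4, 0, 0, 1, 5, 3, 0, 0, 0, 4, 3, 0, 0, 1, 5, 6, 1, 0, 5, 5, 1, 1, 3, 0, 4, 2,
  0, 4, 3, 0, 2, 0, 2, 6, 5, 1, 1, 3, 0, 1, 3, 1, 1, 1, 5, 3, 0, 0, 0, 1, 1, 0, 1, 0, 2, 1, 1, 0, 1, 0, 1, 0,
  0, 0, 1, 5, 2, 1, 1, 0, 1, 0, 0, 1, 0, 0, 0, 1, 3, 0, 5, 1, 0, 4, 3, 0, 2, 0, 2, 5, 3, 0, 0, 0, 3, 0, 2, 0,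
  0, 4, 5, 1, 0, 4, 4, 5, 3, 0, 4, 0, 3, 0, 4, 2, 0, 2, 4, 3, 0, 2, 0, 2, 3, 3, 0, 2, 5, 5, 3, 0, 4, 0, 3, 0,
  5, 4, 0, 0, 1, 5, 3, 0, 0, 0, 4, 3, 0, 0, 1, 5, 1, 0, 4, 3, 0, 2, 0, 2, 5, 3, 0, 0, 0, 3, 0, 2, 0, 0, 3, 4,
  3, 3, 0, 2, 4, 3, 0, 0, 1, 3, 0, 2, 0, 0]

theorem not_decomposes_1_2_2 : ¬ Decomposes 1 2 2 := by
  intro h
  have key : (chk (KRep.add KRep) KRep 30 false ([1, 3, 4], [7, 8]) [1, 3, 4, 7, 8] cert1).isSome = true := by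
    decide +kernel
  obtain ⟨c, hc⟩ := Option.isSome_iff_exists.1 key
  have := chk_sound _ _ _ _ _ _ _ _ hc
  have e1 : ([1, 3, 4, 7, 8] : List ℤ).toFinset = S 1 2 2 := by decide +kernel
  have e2 : (KRep.add KRep).φ ([1, 3, 4], [7, 8]) = (partL 1 2, partR 1 2 2) := by
    have a1 : ([1, 3, 4] : List ℤ).toFinset = partL 1 2 := by decide +kernel
    have a2 : ([7, 8] : List ℤ).toFinset = partR 1 2 2 := by decide +kernel
    exact Prod.ext a1 a2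
  rw [e2] at this
  change Cmp (Konane.add Konane) Konane _ _ ([1, 3, 4, 7, 8] : List ℤ).toFinset at this
  rw [e1] at this
  exact Cmp.excl h.1 this

theorem not_decomposes_3_4_6 : ¬ Decomposes 3 4 6 := by
  intro h
  have key : (chk KRep (KRep.add KRep) 60 false [1, 2, 3, 5, 6, 7, 8, 11, 12, 13, 14, 15, 16]
      ([1, 2, 3, 5, 6, 7, 8], [11, 12, 13, 14, 15, 16]) cert2).isSome = true := by
    decide +kernel
  obtain ⟨c, hc⟩ := Option.isSome_iff_exists.1 key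
  have := chk_sound _ _ _ _ _ _ _ _ hc
  have e1 : ([1, 2, 3, 5, 6, 7, 8, 11, 12, 13, 14, 15, 16] : List ℤ).toFinset = S 3 4 6 := by
    decide +kernel
  have e2 : (KRep.add KRep).φ ([1, 2, 3, 5, 6, 7, 8], [11, 12, 13, 14, 15, 16]) =
      (partL 3 4, partR 3 4 6) := by
    have a1 : ([1, 2, 3, 5, 6, 7, 8] : List ℤ).toFinset = partL 3 4 := by decide +kernel
    have a2 : ([11, 12, 13, 14, 15, 16] : List ℤ).toFinset = partR 3 4 6 := by decide +kernel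
    exact Prod.ext a1 a2
  rw [e2] at this
  change Cmp Konane (Konane.add Konane) _
    ([1, 2, 3, 5, 6, 7, 8, 11, 12, 13, 14, 15, 16] : List ℤ).toFinset _ at this
  rw [e1] at this
  exact Cmp.excl h.2 this

/-- **The decomposition statement fails.** There are triples `(k, m, n)` of positive integers that are not of
the form `(2j, 2j, 2k')` with `j` odd for which `S(k, m·, n)` does not decompose; `(1, 2, 2)` and `(3, 4, 6)`
are examples. -/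
theorem result :
    (∃ k m n : ℕ, 0 < k ∧ 0 < m ∧ 0 < n ∧
      (¬ ∃ j k' : ℕ, Odd j ∧ k = 2 * j ∧ m = 2 * j ∧ n = 2 * k') ∧ ¬ Decomposes k m n) ∧
    ¬ Decomposes 1 2 2 ∧ ¬ Decomposes 3 4 6 := by
  refine ⟨⟨1, 2, 2, by norm_num, by norm_num, by norm_num, ?_, not_decomposes_1_2_2⟩,
    not_decomposes_1_2_2, not_decomposes_3_4_6⟩
  rintro ⟨j, k', -, h, -⟩
  omega

end Pool.Agent.Results.MP_914aa3_co.Exceptions
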